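import Mathlib
import Pool.Agent.H665R2.PathGen

/-!
# Property (P) for a single limit ordinal of cardinality `ℵ_(n+1)` already implies
`ℵ_(n+1) < 2 ^ ℵ_n`
-/

set_option autoImplicit false

namespace Pool.Agent.Results.MP_95a8e7_lc.ContinuumFunction

open Cardinal Ordinal

/-- Property (P) of the ordinal `α`: every graph on `α` (realised as the well-ordered type
`α.ToType` of order type `α`) has an infinite path (an injective sequence of vertices, consecutive
ones adjacent) or an independent set of order type `α`. -/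
def PropP (α : Ordinal.{0}) : Prop :=
  ∀ G : SimpleGraph α.ToType,
    (∃ v : ℕ → α.ToType, Function.Injective v ∧ ∀ n, G.Adj (v n) (v (n + 1))) ∨
    ∃ S : Set α.ToType, G.IsIndepSet S ∧ typeLT S = α

/-- `expo β n = ω_n * (ω_(n-1) * (... * (ω_1 * β)))`, with `n` factors in front of `β`. -/
noncomputable def expo (β : Ordinal.{0}) : ℕ → Ordinal.{0}
  | 0 => β
  | n + 1 => ω_ ((n + 1 : ℕ) : Ordinal.{0}) * expo β n

/-- For every `n` and every ordinal `α` with
`ω_(n+1) ^ (ω_n * ... * ω_1 * (ω + 4)) ≤ α < ω_(n+1) ^ (ω_n * ... * ω_1 * ω_1)`: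
if `α` has property (P), then `ℵ_(n+1) < 2 ^ ℵ_n`. -/
theorem result (n : ℕ) (α : Ordinal.{0})
    (h₁ : ω_ ((n + 1 : ℕ) : Ordinal.{0}) ^ expo (ω + 4) n ≤ α)
    (h₂ : α < ω_ ((n + 1 : ℕ) : Ordinal.{0}) ^ expo (ω_ 1) n) (hP : PropP α) :
    (ℵ_ ((n + 1 : ℕ) : Ordinal.{0}) : Cardinal.{0}) < 2 ^ (ℵ_ (n : Ordinal.{0})) := by
  have hexpo : ∀ (β : Ordinal.{0}) (n : ℕ), expo β n = H665R2.PathGen.sg β n := by
    intro β n
    induction n with
    | zero => rfl
    | succ n ih => simp only [expo, H665R2.PathGen.sg, ih]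
  rw [hexpo] at h₁ h₂
  have hle : (ℵ_ ((n + 1 : ℕ) : Ordinal.{0}) : Cardinal.{0}) ≤ 2 ^ (ℵ_ (n : Ordinal.{0})) := by
    rw [H665R2.PathGen.aleph_nat_succ, Order.succ_le_iff]
    exact Cardinal.cantor _
  refine lt_of_le_of_ne hle ?_
  intro heq
  exact H665R2.PathGen.gch_interval n heq.symm α α h₂ h₁ hP

end Pool.Agent.Results.MP_95a8e7_lc.ContinuumFunction
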